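import Pool.Agent.Y892.DP.Stm2

/-!
# Separating the `p`-part of an automorphism (project DP of helper892)
-/

open scoped Classical BigOperators

noncomputable section

namespace Pool.Agent.Y576.DP

open Pool.Agent.Y63.KR Pool.Agent.Y63.AWC Pool.Agent.Y892.DP

/-! ### Exponents -/

theorem exps (p : ℕ) [hp : Fact p.Prime] (G : Type) [Group G] [Finite G] :
    ∃ t t' : ℕ, (∀ g : G, g ^ t * g ^ t' = g) ∧ (∀ g : G, (g ^ t') ^ t = 1) ∧
      (∀ g : G, ∃ k : ℕ, (g ^ t) ^ p ^ k = 1) ∧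
      (∀ g : G, (∃ k : ℕ, g ^ p ^ k = 1) → g ^ t = g) ∧
      (∀ g : G, ¬ p ∣ orderOf g → g ^ t = 1) := by
  have hc0 : Nat.card G ≠ 0 := Nat.card_pos.ne'
  obtain ⟨s, n, hPn, hpn⟩ : ∃ s n : ℕ, p ^ s * n = Nat.card G ∧ Nat.Coprime p n :=
    ⟨(Nat.card G).factorization p, Nat.card G / p ^ (Nat.card G).factorization p,
      Nat.ordProj_mul_ordCompl_eq_self _ _, Nat.coprime_ordCompl hp.out hc0⟩
  have hco : Nat.Coprime (p ^ s) n := hpn.pow_left _
  obtain ⟨t, ht1, ht2⟩ := Nat.chineseRemainder hco 1 0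
  obtain ⟨t', ht1', ht2'⟩ := Nat.chineseRemainder hco 0 1
  rw [Nat.modEq_zero_iff_dvd] at ht2 ht1'
  have hord : ∀ g : G, orderOf g ∣ p ^ s * n := fun g => by
    rw [hPn]
    exact orderOf_dvd_natCard g
  have h1 : t + t' ≡ 1 [MOD p ^ s * n] := by
    rw [← Nat.modEq_and_modEq_iff_modEq_mul hco]
    constructor
    · have h2 : t + t' ≡ 1 + 0 [MOD p ^ s] := ht1.add ((Nat.modEq_zero_iff_dvd).2 ht1')
      exact h2
    · have h2 : t + t' ≡ 0 + 1 [MOD n] := ((Nat.modEq_zero_iff_dvd).2 ht2).add ht2'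
      exact h2
  refine ⟨t, t', fun g => ?_, fun g => ?_, fun g => ⟨s, ?_⟩, fun g hg => ?_, fun g hg => ?_⟩
  · rw [← pow_add]
    have h2 : g ^ (t + t') = g ^ 1 := pow_eq_pow_iff_modEq.2 (h1.of_dvd (hord g))
    rw [h2, pow_one]
  · rw [← pow_mul]
    exact orderOf_dvd_iff_pow_eq_one.1 ((hord g).trans (mul_dvd_mul ht1' ht2))
  · rw [← pow_mul]
    apply orderOf_dvd_iff_pow_eq_one.1
    refine (hord g).trans ?_
    rw [mul_comm (p ^ s) n]
    exact mul_dvd_mul_right ht2 _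
  · obtain ⟨k, hk⟩ := hg
    have h2 : orderOf g ∣ p ^ k := orderOf_dvd_iff_pow_eq_one.2 hk
    have h3 : Nat.Coprime (orderOf g) n :=
      Nat.Coprime.coprime_dvd_left h2 (hpn.pow_left _)
    have h4 : orderOf g ∣ p ^ s := h3.dvd_of_dvd_mul_right (hord g)
    have h5 : g ^ t = g ^ 1 := pow_eq_pow_iff_modEq.2 (ht1.of_dvd h4)
    rw [h5, pow_one]
  · have h2 : Nat.Coprime (orderOf g) (p ^ s) :=
      (((Nat.Prime.coprime_iff_not_dvd hp.out).2 hg).symm).pow_right _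
    have h3 : orderOf g ∣ n := h2.dvd_of_dvd_mul_left (hord g)
    exact orderOf_dvd_iff_pow_eq_one.1 (h3.trans ht2)

/-! ### Normalisers -/

section

variable {G : Type} [Group G]

theorem nm_pow {g : G} {P : Subgroup G} (h : conjSub g P = P) (k : ℕ) :
    conjSub (g ^ k) P = P :=
  conjSub_eq_iff.2 (pow_mem (conjSub_eq_iff.1 h) k)

theorem nm_of_mem {g : G} {P : Subgroup G} (h : g ∈ P) : conjSub g P = P :=
  conjSub_eq_iff.2 (Subgroup.le_normalizer h)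

theorem nm_inf {g : G} {P Q : Subgroup G} (h : conjSub g P = P) (h' : conjSub g Q = Q) :
    conjSub g (P ⊓ Q) = P ⊓ Q := by
  ext x
  rw [mem_conjSub, Subgroup.mem_inf, Subgroup.mem_inf, ← mem_conjSub, ← mem_conjSub, h, h']

theorem nm_sup {g : G} {P Q : Subgroup G} (h : conjSub g P = P) (h' : conjSub g Q = Q) :
    conjSub g (P ⊔ Q) = P ⊔ Q := by
  have h1 : conjSub g (P ⊔ Q) = conjSub g P ⊔ conjSub g Q := Subgroup.map_sup _ _ _
  rw [h1, h, h']

theorem nm_zpowers {x u : G} (h : x * u = u * x) :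
    conjSub x (Subgroup.zpowers u) = Subgroup.zpowers u := by
  unfold conjSub
  rw [MonoidHom.map_zpowers]
  congr 1
  show x * u * x⁻¹ = u
  rw [h]
  group

theorem nm_centralizer {x u : G} (h : x * u = u * x) :
    conjSub x (Subgroup.centralizer {u}) = Subgroup.centralizer {u} :=
  nm_of_mem (Subgroup.mem_centralizer_singleton_iff.2 h)

theorem nm_of_le_centralizer {u : G} {P : Subgroup G} (h : P ≤ Subgroup.centralizer {u}) :
    conjSub u P = P := by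
  ext x
  rw [mem_conjSub]
  constructor
  · intro hx
    have h1 := Subgroup.mem_centralizer_singleton_iff.1 (h hx)
    have h2 : u⁻¹ * x * u = x := by
      have h3 : u * (u⁻¹ * x * u) * u⁻¹ = x := by group
      have h4 : u * (u⁻¹ * x * u) * u⁻¹ = u⁻¹ * x * u := by
        rw [← h1]; group
      rw [← h4, h3]
    rwa [h2] at hx
  · intro hx
    have h1 := Subgroup.mem_centralizer_singleton_iff.1 (h hx)
    have h2 : u⁻¹ * x * u = x := by
      rw [mul_assoc, h1]; group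
    rw [h2]
    exact hx

/-- powers of elements of a coset -/
theorem coset_pow {N : Subgroup G} {e y : G} (he : conjSub e N = N) (hy : e⁻¹ * y ∈ N) (k : ℕ) :
    (e ^ k)⁻¹ * y ^ k ∈ N := by
  induction k with
  | zero => simp
  | succ k ih =>
    have h1 : e⁻¹ * ((e ^ k)⁻¹ * y ^ k) * e ∈ N := by
      rw [← mem_conjSub, he]
      exact ih
    have h2 : (e ^ (k + 1))⁻¹ * y ^ (k + 1) =
        (e⁻¹ * ((e ^ k)⁻¹ * y ^ k) * e) * (e⁻¹ * y) := by
      rw [pow_succ, pow_succ]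
      group
    rw [h2]
    exact mul_mem h1 hy

theorem pgroup_zpowers {p : ℕ} {u : G} (hu : ∃ k : ℕ, u ^ p ^ k = 1) :
    IsPGroup p (Subgroup.zpowers u) := by
  obtain ⟨k, hk⟩ := hu
  rintro ⟨z, i, rfl⟩
  refine ⟨k, ?_⟩
  apply Subtype.ext
  show (u ^ i) ^ p ^ k = 1
  rw [← zpow_natCast, ← zpow_mul, mul_comm, zpow_mul, zpow_natCast, hk, one_zpow]

/-- a `p`-element normalising a nontrivial `p`-group centralises a nontrivial subgroup -/
theorem fixed_ne_bot {p : ℕ} [hp : Fact p.Prime] [Finite G] {P : Subgroup G} {u : G}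
    (hP : IsPGroup p P) (hP0 : P ≠ ⊥) (hu : ∃ k : ℕ, u ^ p ^ k = 1) (hn : conjSub u P = P) :
    P ⊓ Subgroup.centralizer {u} ≠ ⊥ := by
  have hz : ∀ g : Subgroup.zpowers u, ∀ x : P, (g : G) * x * (g : G)⁻¹ ∈ P := by
    rintro ⟨g, hg⟩ x
    have h1 : g ∈ Subgroup.normalizer (P : Set G) :=
      (Subgroup.zpowers_le.2 (conjSub_eq_iff.1 hn)) hg
    exact ((Subgroup.mem_normalizer_iff.1 h1) x).1 x.2
  let act : MulAction (Subgroup.zpowers u) P :=
    { smul := fun g x => ⟨(g : G) * x * (g : G)⁻¹, hz g x⟩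
      one_smul := fun x => Subtype.ext (by
        show ((1 : Subgroup.zpowers u) : G) * x * ((1 : Subgroup.zpowers u) : G)⁻¹ = x
        simp)
      mul_smul := fun g g' x => Subtype.ext (by
        show ((g * g' : Subgroup.zpowers u) : G) * x * ((g * g' : Subgroup.zpowers u) : G)⁻¹ =
          (g : G) * ((g' : G) * x * (g' : G)⁻¹) * (g : G)⁻¹
        rw [Subgroup.coe_mul]
        group) }
  have hsm : ∀ (g : Subgroup.zpowers u) (x : P), ((g • x : P) : G) = (g : G) * x * (g : G)⁻¹ :=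
    fun _ _ => rfl
  have hdvd : p ∣ Nat.card P := by
    rcases hP.card_eq_or_dvd with h | h
    · exact absurd (Subgroup.card_eq_one.1 h) hP0
    · exact h
  have h1 : (1 : P) ∈ MulAction.fixedPoints (Subgroup.zpowers u) P := by
    intro g
    apply Subtype.ext
    rw [hsm]
    simp
  obtain ⟨b, hb, hb1⟩ := (pgroup_zpowers hu).exists_fixed_point_of_prime_dvd_card_of_fixed_point
    P hdvd h1
  intro hbot
  apply hb1
  have h2 : (b : G) ∈ P ⊓ Subgroup.centralizer {u} := by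
    refine ⟨b.2, ?_⟩
    apply Subgroup.mem_centralizer_singleton_iff.2
    have h3 := hb ⟨u, Subgroup.mem_zpowers u⟩
    have h4 := congrArg (fun x : P => (x : G)) h3
    simp only [hsm] at h4
    have h5 : u * (b : G) * u⁻¹ = b := h4
    calc (b : G) * u = (u * (b : G) * u⁻¹) * u := by rw [h5]
      _ = u * b := by group
  rw [hbot] at h2
  apply Subtype.ext
  have h6 : (b : G) = 1 := Subgroup.mem_bot.1 h2
  rw [h6]
  rfl

/-- vanishing of the weight -/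
theorem cone (h2 : S_W2) {p : ℕ} [Fact p.Prime] [Finite G] {K U : Subgroup G} {x y : G}
    (hU : IsPGroup p U) (hU0 : U ≠ ⊥) (hUK : U ≤ K) (hx : conjSub x U = U)
    (hy : conjSub y U = U)
    (hn : ∀ P : Subgroup G, conjSub x P = P → conjSub y P = P →
      U ≤ Subgroup.normalizer (P : Set G)) : w (fx (inside p K) {x, y}) = 0 := by
  refine h2 G _ U ?_ ?_
  · refine ⟨⟨hU, hU0, hUK⟩, ?_⟩
    rintro z (rfl | rfl)
    · exact hx
    · exact hy
  · rintro P ⟨⟨h1, h3, h4⟩, h5⟩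
    have hPx := h5 x (Or.inl rfl)
    have hPy := h5 y (Or.inr rfl)
    refine ⟨⟨h1.to_sup_of_normal_left' hU (hn P hPx hPy), ?_, sup_le h4 hUK⟩, ?_⟩
    · intro h
      exact h3 (le_bot_iff.1 (le_sup_left.trans h.le))
    · rintro z (rfl | rfl)
      · exact nm_sup hPx hx
      · exact nm_sup hPy hy

/-- elements with a power inside `N` -/
theorem caseI (h2 : S_W2) {p : ℕ} [Fact p.Prime] [Finite G] {N : Subgroup G} {x y : G} {t : ℕ}
    (hx : x ∈ N) (hy : conjSub y N = N) (hxy : x * y = y * x)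
    (hp : ∃ k : ℕ, (y ^ t) ^ p ^ k = 1) (hb : Subgroup.zpowers (y ^ t) ⊓ N ≠ ⊥) :
    w (fx (inside p N) {x, y}) = 0 := by
  have hc : x * y ^ t = y ^ t * x := (Commute.pow_right (show Commute x y from hxy) t).eq
  have hc' : y * y ^ t = y ^ t * y := (Commute.pow_right (Commute.refl y) t).eq
  refine cone h2 (U := Subgroup.zpowers (y ^ t) ⊓ N) (pgroup_zpowers hp).to_inf_left hb
    inf_le_right (nm_inf (nm_zpowers hc) (nm_of_mem hx)) (nm_inf (nm_zpowers hc') hy) ?_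
  intro P _ hPy
  refine inf_le_left.trans (Subgroup.zpowers_le.2 ?_)
  exact pow_mem (conjSub_eq_iff.1 hPy) t

/-- elements whose `p`-part meets `N` trivially -/
theorem caseII (h3 : S_W3) {p : ℕ} [Fact p.Prime] [Finite G] {N : Subgroup G} {x y : G} {t t' : ℕ}
    (hxy : x * y = y * x) (hy : y ^ t * y ^ t' = y)
    (hp : ∃ k : ℕ, (y ^ t) ^ p ^ k = 1) :
    w (fx (inside p N) {x, y}) =
      w (fx (inside p (N ⊓ Subgroup.centralizer {y ^ t})) {x, y ^ t'}) := by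
  have hc : x * y ^ t = y ^ t * x := (Commute.pow_right (show Commute x y from hxy) t).eq
  have hc' : y ^ t' * y ^ t = y ^ t * y ^ t' := by
    rw [← pow_add, ← pow_add, add_comm]
  refine h3 G _ _ (fun P => P ⊓ Subgroup.centralizer {y ^ t}) ?_ ?_ ?_ ?_
  · rintro P ⟨⟨h1, h2, h4⟩, h5⟩
    refine ⟨⟨h1, h2, h4.trans inf_le_left⟩, ?_⟩
    rintro z (rfl | rfl)
    · exact h5 _ (Or.inl rfl)
    · have h6 := h5 _ (Or.inr rfl)
      have h7 := nm_of_le_centralizer (h4.trans inf_le_right)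
      rw [← hy, conjSub_mul, h6, h7]
  · rintro P ⟨⟨h1, h2, h4⟩, h5⟩
    have h6 := h5 x (Or.inl rfl)
    have h7 := h5 y (Or.inr rfl)
    refine ⟨⟨⟨h1.to_inf_left, fixed_ne_bot h1 h2 hp (nm_pow h7 t),
      inf_le_inf_right _ h4⟩, ?_⟩, inf_le_left⟩
    rintro z (rfl | rfl)
    · exact nm_inf h6 (nm_centralizer hc)
    · exact nm_inf (nm_pow h7 t') (nm_centralizer hc')
  · intro P _ Q _ hPQ
    exact inf_le_inf_right _ hPQ
  · rintro P ⟨⟨_, _, h4⟩, _⟩
    exact inf_eq_left.2 (h4.trans inf_le_right)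

/-- elements which are not `p`-regular -/
theorem caseIII (h2 : S_W2) {p : ℕ} [Fact p.Prime] [Finite G] {N : Subgroup G} {x u v b : G}
    {t : ℕ} (hb : conjSub b N = N) (hbt : b ^ t = 1) (hv : b⁻¹ * v ∈ N) (hvu : v * u = u * v)
    (hxv : x * v = v * x) (hp : ∃ k : ℕ, (v ^ t) ^ p ^ k = 1) (hvt : v ^ t ≠ 1) :
    w (fx (inside p (N ⊓ Subgroup.centralizer {u})) {x, v}) = 0 := by
  have hc : x * v ^ t = v ^ t * x := (Commute.pow_right (show Commute x v from hxv) t).eq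
  have hc' : v * v ^ t = v ^ t * v := (Commute.pow_right (Commute.refl v) t).eq
  have hcu : v ^ t * u = u * v ^ t := (Commute.pow_left (show Commute v u from hvu) t).eq
  have hN : v ^ t ∈ N := by
    have h1 := coset_pow hb hv t
    rwa [hbt, inv_one, one_mul] at h1
  refine cone h2 (U := Subgroup.zpowers (v ^ t)) (pgroup_zpowers hp) ?_ ?_ (nm_zpowers hc)
    (nm_zpowers hc') ?_
  · intro h
    exact hvt (Subgroup.zpowers_eq_bot.1 h)
  · rw [Subgroup.zpowers_le]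
    exact ⟨hN, Subgroup.mem_centralizer_singleton_iff.2 hcu⟩
  · intro P _ hPv
    exact Subgroup.zpowers_le.2 (pow_mem (conjSub_eq_iff.1 hPv) t)

end

theorem finsum_sub {α : Type} [Fintype α] (P : α → Prop) (f : α → ℤ) :
    ∑ᶠ q : {q : α // P q}, f q.1 = ∑ q : α, if P q then f q else 0 := by
  rw [finsum_eq_sum_of_fintype, ← Finset.sum_filter]
  exact (Finset.sum_subtype (Finset.univ.filter P) (fun q => by simp) f).symm

theorem red : S_W2 → S_W3 → S_RED := by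
  intro h2 h3 p hp G _ _ N a b hab ha hb hN
  have := Fintype.ofFinite G
  obtain ⟨t, t', T1, T2, T3, T4, T5⟩ := exps p G
  have hat : a ^ t = a := T4 a ha
  have hbt : b ^ t = 1 := T5 b hb
  have hat' : a ^ t' = 1 := by
    have h1 := T1 a
    rw [hat] at h1
    exact mul_eq_left.1 h1
  have hbt' : b ^ t' = b := by
    have h1 := T1 b
    rwa [hbt, one_mul] at h1
  have hcab : Commute a b := hab
  have het : (a * b) ^ t = a := by rw [hcab.mul_pow, hat, hbt, mul_one]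
  have het' : (a * b) ^ t' = b := by rw [hcab.mul_pow, hat', hbt', one_mul]
  have hNa : conjSub a N = N := by
    have h1 := nm_pow hN t
    rwa [het] at h1
  have hNb : conjSub b N = N := by
    have h1 := nm_pow hN t'
    rwa [het'] at h1
  have hNy : ∀ y, (a * b)⁻¹ * y ∈ N → conjSub y N = N := by
    intro y hy
    have h1 : y = (a * b) * ((a * b)⁻¹ * y) := by group
    rw [h1, conjSub_mul, nm_of_mem hy, hN]
  -- the left side
  have hL : pairs2 p N {y | (a * b)⁻¹ * y ∈ N} =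
      ∑ q ∈ (Finset.univ.filter (fun q : G × G => q.1 ∈ N ∧ (a * b)⁻¹ * q.2 ∈ N ∧
        q.1 * q.2 = q.2 * q.1)).filter (fun q => Subgroup.zpowers (q.2 ^ t) ⊓ N = ⊥),
        w (fx (inside p N) {q.1, q.2}) := by
    unfold pairs2
    rw [finsum_sub (fun q : G × G => q.1 ∈ N ∧ q.2 ∈ {y | (a * b)⁻¹ * y ∈ N} ∧
      q.1 * q.2 = q.2 * q.1) (fun q => w (fx (inside p N) {q.1, q.2})), Finset.sum_filter,
      Finset.sum_filter]
    refine Finset.sum_congr rfl fun q _ => ?_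
    by_cases hq : q.1 ∈ N ∧ (a * b)⁻¹ * q.2 ∈ N ∧ q.1 * q.2 = q.2 * q.1
    · have hq' : q.1 ∈ N ∧ q.2 ∈ {y | (a * b)⁻¹ * y ∈ N} ∧ q.1 * q.2 = q.2 * q.1 := hq
      rw [if_pos hq', if_pos hq]
      by_cases hz : Subgroup.zpowers (q.2 ^ t) ⊓ N = ⊥
      · rw [if_pos hz]
      · rw [if_neg hz]
        exact caseI h2 hq.1 (hNy q.2 hq.2.1) hq.2.2 (T3 q.2) hz
    · have hq' : ¬ (q.1 ∈ N ∧ q.2 ∈ {y | (a * b)⁻¹ * y ∈ N} ∧ q.1 * q.2 = q.2 * q.1) := hq
      rw [if_neg hq', if_neg hq]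
  -- the right side
  have hR : ∑ᶠ u : {u : G // a⁻¹ * u ∈ N ∧ (∃ k : ℕ, u ^ p ^ k = 1) ∧
        Subgroup.zpowers u ⊓ N = ⊥},
      pairs2 p (N ⊓ Subgroup.centralizer {u.1}) {v | b⁻¹ * v ∈ N ∧ v * u.1 = u.1 * v} =
      ∑ r ∈ Finset.univ.filter (fun r : G × G × G => (a⁻¹ * r.1 ∈ N ∧
        (∃ k : ℕ, r.1 ^ p ^ k = 1) ∧ Subgroup.zpowers r.1 ⊓ N = ⊥) ∧
        (r.2.1 ∈ N ⊓ Subgroup.centralizer {r.1} ∧
          (b⁻¹ * r.2.2 ∈ N ∧ r.2.2 * r.1 = r.1 * r.2.2) ∧ r.2.1 * r.2.2 = r.2.2 * r.2.1)),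
        w (fx (inside p (N ⊓ Subgroup.centralizer {r.1})) {r.2.1, r.2.2}) := by
    rw [finsum_sub (fun u : G => a⁻¹ * u ∈ N ∧ (∃ k : ℕ, u ^ p ^ k = 1) ∧
      Subgroup.zpowers u ⊓ N = ⊥) (fun u => pairs2 p (N ⊓ Subgroup.centralizer {u})
        {v | b⁻¹ * v ∈ N ∧ v * u = u * v})]
    rw [Finset.sum_filter, Fintype.sum_prod_type]
    refine Finset.sum_congr rfl fun u _ => ?_
    by_cases hu : a⁻¹ * u ∈ N ∧ (∃ k : ℕ, u ^ p ^ k = 1) ∧ Subgroup.zpowers u ⊓ N = ⊥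
    · rw [if_pos hu]
      unfold pairs2
      rw [finsum_sub (fun q : G × G => q.1 ∈ N ⊓ Subgroup.centralizer {u} ∧
        q.2 ∈ {v | b⁻¹ * v ∈ N ∧ v * u = u * v} ∧ q.1 * q.2 = q.2 * q.1)
        (fun q => w (fx (inside p (N ⊓ Subgroup.centralizer {u})) {q.1, q.2}))]
      refine Finset.sum_congr rfl fun q _ => ?_
      by_cases hq : q.1 ∈ N ⊓ Subgroup.centralizer {u} ∧
          (b⁻¹ * q.2 ∈ N ∧ q.2 * u = u * q.2) ∧ q.1 * q.2 = q.2 * q.1
      · have hq' : q.1 ∈ N ⊓ Subgroup.centralizer {u} ∧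
          q.2 ∈ {v | b⁻¹ * v ∈ N ∧ v * u = u * v} ∧ q.1 * q.2 = q.2 * q.1 := hq
        rw [if_pos hq', if_pos (by exact ⟨hu, hq⟩)]
      · have hq' : ¬ (q.1 ∈ N ⊓ Subgroup.centralizer {u} ∧
          q.2 ∈ {v | b⁻¹ * v ∈ N ∧ v * u = u * v} ∧ q.1 * q.2 = q.2 * q.1) := hq
        rw [if_neg hq', if_neg (by exact fun h => hq h.2)]
    · rw [if_neg hu]
      symm
      apply Finset.sum_eq_zero
      intro q _
      rw [if_neg (by exact fun h => hu h.1)]
  have hR' : ∑ r ∈ Finset.univ.filter (fun r : G × G × G => (a⁻¹ * r.1 ∈ N ∧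
        (∃ k : ℕ, r.1 ^ p ^ k = 1) ∧ Subgroup.zpowers r.1 ⊓ N = ⊥) ∧
        (r.2.1 ∈ N ⊓ Subgroup.centralizer {r.1} ∧
          (b⁻¹ * r.2.2 ∈ N ∧ r.2.2 * r.1 = r.1 * r.2.2) ∧ r.2.1 * r.2.2 = r.2.2 * r.2.1)),
        w (fx (inside p (N ⊓ Subgroup.centralizer {r.1})) {r.2.1, r.2.2}) =
      ∑ r ∈ (Finset.univ.filter (fun r : G × G × G => (a⁻¹ * r.1 ∈ N ∧
        (∃ k : ℕ, r.1 ^ p ^ k = 1) ∧ Subgroup.zpowers r.1 ⊓ N = ⊥) ∧
        (r.2.1 ∈ N ⊓ Subgroup.centralizer {r.1} ∧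
          (b⁻¹ * r.2.2 ∈ N ∧ r.2.2 * r.1 = r.1 * r.2.2) ∧
          r.2.1 * r.2.2 = r.2.2 * r.2.1))).filter (fun r => r.2.2 ^ t = 1),
        w (fx (inside p (N ⊓ Subgroup.centralizer {r.1})) {r.2.1, r.2.2}) := by
    symm
    apply Finset.sum_subset
    · exact Finset.filter_subset _ _
    · intro r hr hr'
      have hr0 := hr
      rw [Finset.mem_filter] at hr
      obtain ⟨_, _, g2, ⟨g3, g4⟩, g5⟩ := hr
      apply caseIII h2 hNb hbt g3 g4 g5 (T3 r.2.2)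
      intro h4
      apply hr'
      rw [Finset.mem_filter]
      exact ⟨hr0, h4⟩
  rw [hL, hR, hR']
  refine Finset.sum_nbij' (fun q : G × G => (q.2 ^ t, q.1, q.2 ^ t'))
    (fun r : G × G × G => (r.2.1, r.1 * r.2.2)) ?_ ?_ ?_ ?_ ?_
  · rintro ⟨x, y⟩ hq
    rw [Finset.mem_filter, Finset.mem_filter] at hq
    obtain ⟨⟨_, g1, g2, g3⟩, g4⟩ := hq
    simp only at g1 g2 g3 g4
    rw [Finset.mem_filter, Finset.mem_filter]
    refine ⟨⟨Finset.mem_univ _, ⟨?_, T3 y, g4⟩, ⟨g1, ?_⟩, ⟨?_, ?_⟩, ?_⟩, T2 y⟩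
    · have h4 := coset_pow hN g2 t
      rwa [het] at h4
    · exact Subgroup.mem_centralizer_singleton_iff.2
        (Commute.pow_right (show Commute x y from g3) t).eq
    · have h4 := coset_pow hN g2 t'
      rwa [het'] at h4
    · show y ^ t' * y ^ t = y ^ t * y ^ t'
      rw [← pow_add, ← pow_add, add_comm]
    · exact (Commute.pow_right (show Commute x y from g3) t').eq
  · rintro ⟨u, x, v⟩ hr
    rw [Finset.mem_filter, Finset.mem_filter] at hr
    obtain ⟨⟨_, ⟨g1, g2, g3⟩, ⟨g4, g4'⟩, ⟨g5, g6⟩, g7⟩, g8⟩ := hr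
    simp only at g1 g2 g3 g4 g4' g5 g6 g7 g8
    have g9 := Subgroup.mem_centralizer_singleton_iff.1 g4'
    have hcuv : Commute u v := g6.symm
    have huvt : (u * v) ^ t = u := by rw [hcuv.mul_pow, T4 u g2, g8, mul_one]
    rw [Finset.mem_filter, Finset.mem_filter]
    refine ⟨⟨Finset.mem_univ _, g4, ?_, ?_⟩, ?_⟩
    · show (a * b)⁻¹ * (u * v) ∈ N
      have h4 : b⁻¹ * (a⁻¹ * u) * b ∈ N := by
        rw [← mem_conjSub, hNb]
        exact g1
      have h5 : (a * b)⁻¹ * (u * v) = (b⁻¹ * (a⁻¹ * u) * b) * (b⁻¹ * v) := by group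
      rw [h5]
      exact mul_mem h4 g5
    · show x * (u * v) = u * v * x
      rw [← mul_assoc, g9, mul_assoc, g7, mul_assoc]
    · show Subgroup.zpowers ((u * v) ^ t) ⊓ N = ⊥
      rw [huvt]
      exact g3
  · rintro ⟨x, y⟩ _
    show (x, y ^ t * y ^ t') = (x, y)
    rw [T1]
  · rintro ⟨u, x, v⟩ hr
    rw [Finset.mem_filter, Finset.mem_filter] at hr
    obtain ⟨⟨_, ⟨g1, g2, g3⟩, ⟨g4, g4'⟩, ⟨g5, g6⟩, g7⟩, g8⟩ := hr
    simp only at g1 g2 g3 g4 g4' g5 g6 g7 g8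
    have hcuv : Commute u v := g6.symm
    have hut' : u ^ t' = 1 := by
      have h1 := T1 u
      rw [T4 u g2] at h1
      exact mul_eq_left.1 h1
    have hvt' : v ^ t' = v := by
      have h1 := T1 v
      rwa [g8, one_mul] at h1
    show ((u * v) ^ t, x, (u * v) ^ t') = (u, x, v)
    rw [hcuv.mul_pow, hcuv.mul_pow, T4 u g2, g8, mul_one, hut', hvt', one_mul]
  · rintro ⟨x, y⟩ hq
    rw [Finset.mem_filter, Finset.mem_filter] at hq
    obtain ⟨⟨_, g1, g2, g3⟩, g4⟩ := hq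
    exact caseII h3 g3 (T1 y) (T3 y)

end Pool.Agent.Y576.DP
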